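import Mathlib
import Pool.Agent.H47R4.Window

set_option autoImplicit false

namespace Pool.Agent.Results.MP_39a890_nt.ConsecutiveMultipliers

open Filter

/-- For every `ε > 0` there are `m` and `N₀` such that for every `N ≥ N₀` there are an integer `c`
with `1 ≤ c < m` and primes `p`, `q` with `c p + 1 = (c + 1) q` and `N ≤ c p ≤ (3 + ε) N`. The
question asks for `c = 1` and the factor `2`. -/
theorem result : ∀ ε : ℝ, 0 < ε → ∃ m N₀ : ℕ, ∀ N : ℕ, N₀ ≤ N → ∃ c p q : ℕ,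
    1 ≤ c ∧ c < m ∧ p.Prime ∧ q.Prime ∧ c * p + 1 = (c + 1) * q ∧ N ≤ c * p ∧
      ((c * p : ℕ) : ℝ) ≤ (3 + ε) * N := by
  intro ε hε
  obtain ⟨m, hm⟩ := Pool.Agent.H47R4.window ε hε
  obtain ⟨y0, hy0⟩ := Filter.eventually_atTop.1 hm
  refine ⟨m, ⌈y0⌉₊, fun N hN => ?_⟩
  obtain ⟨n, p, q, c, hp, hq, h1, h2, h3, h4, h5, h6⟩ := hy0 N
    ((Nat.le_ceil y0).trans (by exact_mod_cast hN))
  subst h1
  exact ⟨c, p, q, h3, h4, hp, hq, h2, by exact_mod_cast h5, h6⟩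

end Pool.Agent.Results.MP_39a890_nt.ConsecutiveMultipliers
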