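import Pool.Agent.H947R3.CA.CunnAll

/-!
# Primes `q` with `(q - 1) / 2 ^ k + 1` prime below every large `N`

For `k = 1` the condition is that `q` and `(q + 1) / 2` are prime.
-/

namespace Pool.Agent.Results.MP_39a890_nt.EveryLargeNBoundedPower

/-- `q` is a prime with `y ≤ q ≤ N`, `q ≡ 1 (mod 2 ^ k)`, and `(q - 1) / 2 ^ k + 1` is prime;
for `k = 1` the last number is `(q + 1) / 2` -/
def Good (k : ℕ) (y : ℝ) (N q : ℕ) : Prop :=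
  y ≤ q ∧ q ≤ N ∧ q.Prime ∧ 2 ^ k ∣ q - 1 ∧ ((q - 1) / 2 ^ k + 1).Prime

theorem result :
    -- for every large `N` there are many such primes `q ≤ N` for one `k ≤ 1999`
    (∃ θ : ℝ, 1 / 2 < θ ∧ ∃ N₀ : ℕ, ∀ N : ℕ, N₀ ≤ N → ∃ k : ℕ, 1 ≤ k ∧ k ≤ 1999 ∧
      (N : ℝ) ^ θ ≤ ({q : ℕ | Good k ((N : ℝ) ^ θ) N q}.ncard : ℝ)) ∧
    -- and `k` can be taken among the differences of any given set of `2000` integers
    (∀ E : Finset ℕ, 2000 ≤ E.card →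
      ∃ θ : ℝ, 1 / 2 < θ ∧ ∃ N₀ : ℕ, ∀ N : ℕ, N₀ ≤ N → ∃ x ∈ E, ∃ y ∈ E, x < y ∧
        (N : ℝ) ^ θ ≤ ({q : ℕ | Good (y - x) ((N : ℝ) ^ θ) N q}.ncard : ℝ)) := by
  refine ⟨?_, Pool.Agent.H947R3.CA.main_set⟩
  obtain ⟨θ, h1, N₀, h2⟩ := Pool.Agent.H947R3.CA.main_set (Finset.range 2000)
    (by rw [Finset.card_range])
  refine ⟨θ, h1, N₀, fun N hN => ?_⟩
  obtain ⟨x, hx, y, hy, hxy, h⟩ := h2 N hN
  rw [Finset.mem_range] at hx hy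
  exact ⟨y - x, by omega, by omega, h⟩

end Pool.Agent.Results.MP_39a890_nt.EveryLargeNBoundedPower
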