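import Mathlib
import Pool.Agent.H47R4.Two2

set_option autoImplicit false

namespace Pool.Agent.Results.MP_39a890_nt.TwoWindows

/-- For every `C` there are `m` and `N₀` such that for all `N₁ ≥ N₀` and `N₂` with
`1.51 N₁ ≤ N₂ ≤ C N₁` at least one of the two windows `[N₁, 2 N₁]` and `[N₂, 2 N₂]` contains a
number `c p` with `1 ≤ c < m`, `p` prime and `c p + 1 = (c + 1) q` for a prime `q`. -/
theorem result : ∀ C : ℕ, ∃ m N₀ : ℕ, ∀ N₁ N₂ : ℕ, N₀ ≤ N₁ → 151 * N₁ ≤ 100 * N₂ →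
    N₂ ≤ C * N₁ → ∃ c p q : ℕ, 1 ≤ c ∧ c < m ∧ p.Prime ∧
      q.Prime ∧ c * p + 1 = (c + 1) * q ∧ ((N₁ ≤ c * p ∧ c * p ≤ 2 * N₁) ∨
        (N₂ ≤ c * p ∧ c * p ≤ 2 * N₂)) :=
  fun C => Pool.Agent.H47R4.two_windows C

end Pool.Agent.Results.MP_39a890_nt.TwoWindows
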